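import Pool.Agent.X65.MP.Red

/-!
# The randomization test for matched pairs is not in NP unless NP = coNP

Problem MP_a7edd4_lc, Q1. Definitions (`Pool.Agent.X65.MP.Red`): an instance is a list of pairs of
integers and a number `K` (in binary); `dd (x, y) = |x - y|`; `tt` is the sum `T` of the `x_i - y_i`
over the `i` with `x_i > y_i`; `nn` is the number `N` of the sets `S` of indices with
`∑_{i ∈ S} d_i ≤ T`; `RTMP` asks whether `N ≥ K`.
-/

set_option autoImplicit false

namespace Pool.Agent.Results.MP_a7edd4_lc.CoNPHard

open Pool.Agent.NPC Pool.Agent.X65.MP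

/-- **RTMP is coNP-hard** (under polynomial-time many-one reductions). So if RTMP is in `NP`, then
`NP = coNP`. -/
theorem result : CoNPHardP RTMP ∧
    (InNPP RTMP → ∀ L : Set (List Bool), InNP L ↔ InCoNP L) := by
  refine ⟨coNPHard, fun h L => ?_⟩
  have key : ∀ L : Set (List Bool), InCoNP L → InNP L := fun L hL =>
    Pool.Agent.H622R2.InNP.of_reduces (coNPHard L hL) h
  constructor
  · intro hL
    refine key Lᶜ ?_
    unfold InCoNP
    rwa [compl_compl]
  · exact key L

end Pool.Agent.Results.MP_a7edd4_lc.CoNPHard
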